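import Mathlib

/-!
Retracts of free Burnside groups whose exponent is not a prime power.

If `n = a * b` with `a, b > 1` coprime and `x` is one of the free generators of `B(m, n)`, then the
cyclic subgroup of order `a` of the cyclic group generated by `x` is a retract of `B(m, n)`: let
`e` be divisible by `b` and congruent to `1` modulo `a`, send `x` to `x ^ e` and the other
generators to `1`. Its exponent is `a`, so it is not a free group of the variety defined by the
law `x ^ n = 1`.
-/

set_option autoImplicit false

universe u v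

namespace Pool.Agent.Results.MP_836feb_al.NonfreeRetracts

/-- The free Burnside group of exponent `n` with the set `α` of free generators: the quotient of
the free group on `α` by the normal subgroup generated by all `n`-th powers. -/
abbrev FreeBurnside (α : Type u) (n : ℕ) : Type u :=
  FreeGroup α ⧸ Subgroup.normalClosure (Set.range fun w : FreeGroup α => w ^ n)

/-- The subgroup `H` is a retract of the group `G`: some homomorphism from `G` to `H` fixes every
element of `H`. -/
def IsRetract {G : Type u} [Group G] (H : Subgroup G) : Prop :=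
  ∃ ρ : G →* H, ∀ h : H, ρ h = h

section aux

variable {α : Type u} {n : ℕ}

/-- A free generator. -/
def gen (n : ℕ) (i : α) : FreeBurnside α n := QuotientGroup.mk (FreeGroup.of i)

lemma pow_eq_one (g : FreeBurnside α n) : g ^ n = 1 := by
  induction g using QuotientGroup.induction_on with
  | H w =>
    rw [← QuotientGroup.mk_pow, QuotientGroup.eq_one_iff]
    exact Subgroup.subset_normalClosure ⟨w, rfl⟩

/-- The homomorphism given by the images of the generators. -/
def lift {G : Type v} [Group G] (hG : ∀ g : G, g ^ n = 1) (f : α → G) : FreeBurnside α n →* G :=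
  QuotientGroup.lift _ (FreeGroup.lift f) (by
    intro w hw
    have h : Subgroup.normalClosure (Set.range fun w : FreeGroup α => w ^ n) ≤
        (FreeGroup.lift f).ker := by
      apply Subgroup.normalClosure_le_normal
      rintro _ ⟨w, rfl⟩
      show FreeGroup.lift f (w ^ n) = 1
      rw [map_pow, hG]
    exact h hw)

lemma lift_gen {G : Type v} [Group G] (hG : ∀ g : G, g ^ n = 1) (f : α → G) (i : α) :
    lift hG f (gen n i) = f i := by
  simp [lift, gen]

lemma lift_mem {G : Type v} [Group G] (hG : ∀ g : G, g ^ n = 1) (f : α → G) (K : Subgroup G)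
    (hf : ∀ i, f i ∈ K) (g : FreeBurnside α n) : lift hG f g ∈ K := by
  induction g using QuotientGroup.induction_on with
  | H w =>
    show FreeGroup.lift f w ∈ K
    induction w using FreeGroup.induction_on with
    | C1 => simp
    | of i => simpa using hf i
    | inv_of i h => simpa using hf i
    | mul x y hx hy => rw [map_mul]; exact K.mul_mem hx hy

/-- The homomorphism to the integers modulo `n` that sends every generator to `1`. -/
def toZ : FreeBurnside α n →* Multiplicative (ZMod n) :=
  lift (fun g => by
    apply Multiplicative.toAdd.injective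
    rw [toAdd_pow, toAdd_one]
    simp) (fun _ => Multiplicative.ofAdd 1)

lemma gen_pow_ne_one (i : α) {k : ℕ} (hk : ¬ n ∣ k) : gen n i ^ k ≠ 1 := by
  intro h
  have h1 := congrArg (toZ (α := α) (n := n)) h
  rw [map_pow, map_one, toZ, lift_gen] at h1
  have h2 := congrArg Multiplicative.toAdd h1
  rw [toAdd_pow, toAdd_ofAdd, toAdd_one, nsmul_one] at h2
  exact hk ((ZMod.natCast_eq_zero_iff k n).1 h2)

end aux

/-- Let `n ≥ 2` be an integer that is not a prime power. Every free Burnside group of exponent `n`
and nonzero (finite or infinite) rank has a retract that is not isomorphic to any free Burnside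
group of exponent `n`. -/
theorem result (n : ℕ) (hn : 2 ≤ n) (hpp : ¬ IsPrimePow n) (α : Type u) [Nonempty α] :
    ∃ H : Subgroup (FreeBurnside α n), IsRetract H ∧
      ∀ β : Type v, IsEmpty (H ≃* FreeBurnside β n) := by
  classical
  -- a coprime factorization
  obtain ⟨a, b, ha, hb, hab, rfl⟩ : ∃ a b : ℕ, 1 < a ∧ 1 < b ∧ a.Coprime b ∧ n = a * b := by
    obtain ⟨p, hp, hpn⟩ := Nat.exists_prime_and_dvd (show n ≠ 1 by omega)
    have hn0 : n ≠ 0 := by omega
    refine ⟨p ^ n.factorization p, n / p ^ n.factorization p, ?_, ?_, ?_, ?_⟩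
    · exact Nat.one_lt_pow (Nat.pos_iff_ne_zero.1 (hp.factorization_pos_of_dvd hn0 hpn)) hp.one_lt
    · have h1 := Nat.ordCompl_pos p hn0
      rcases Nat.lt_or_ge 1 (n / p ^ n.factorization p) with h | h
      · exact h
      · exfalso
        have h2 : n / p ^ n.factorization p = 1 := by omega
        have h3 := Nat.ordProj_mul_ordCompl_eq_self n p
        rw [h2, mul_one] at h3
        apply hpp
        rw [← h3]
        exact hp.isPrimePow.pow (Nat.pos_iff_ne_zero.1 (hp.factorization_pos_of_dvd hn0 hpn))
    · exact Nat.Coprime.pow_left _ (Nat.coprime_ordCompl hp hn0)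
    · exact (Nat.ordProj_mul_ordCompl_eq_self n p).symm
  obtain ⟨i⟩ := ‹Nonempty α›
  obtain ⟨e, he1, he2⟩ := Nat.chineseRemainder hab 1 0
  set x : FreeBurnside α (a * b) := gen (a * b) i with hx
  have hbe : b ∣ e := (Nat.modEq_zero_iff_dvd).1 he2
  have hea : a * b ∣ e * a := by
    rw [mul_comm a b]; exact Nat.mul_dvd_mul_right hbe a
  have hxn : x ^ (a * b) = 1 := pow_eq_one x
  have hee : x ^ (e * e) = x ^ e := by
    have h1 : e * e ≡ e [MOD a * b] := by
      rw [← Nat.modEq_and_modEq_iff_modEq_mul hab]
      constructor
      · simpa using Nat.ModEq.mul_right e he1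
      · have : e * e ≡ 0 * e [MOD b] := Nat.ModEq.mul_right e he2
        rw [zero_mul] at this
        exact this.trans he2.symm
    rw [pow_eq_pow_iff_modEq]
    exact h1.of_dvd (orderOf_dvd_of_pow_eq_one hxn)
  let f : α → FreeBurnside α (a * b) := fun j => if j = i then x ^ e else 1
  let H : Subgroup (FreeBurnside α (a * b)) := Subgroup.zpowers (x ^ e)
  have hf : ∀ j, f j ∈ H := by
    intro j
    by_cases hj : j = i
    · simp only [f, hj, if_true]; exact Subgroup.mem_zpowers _
    · simp only [f, hj, if_false]; exact H.one_mem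
  let r : FreeBurnside α (a * b) →* FreeBurnside α (a * b) := lift pow_eq_one f
  have hrx : r x = x ^ e := by
    show lift pow_eq_one f (gen (a * b) i) = _
    rw [lift_gen]; simp [f]
  refine ⟨H, ⟨r.codRestrict H (lift_mem pow_eq_one f H hf), ?_⟩, ?_⟩
  · rintro ⟨h, hh⟩
    obtain ⟨k, rfl⟩ := Subgroup.mem_zpowers_iff.1 hh
    apply Subtype.ext
    show r ((x ^ e) ^ k) = (x ^ e) ^ k
    rw [map_zpow, map_pow, hrx, ← pow_mul, hee]
  · intro β
    refine ⟨fun φ => ?_⟩
    have hHa : ∀ h : H, h ^ a = 1 := by
      rintro ⟨h, hh⟩
      obtain ⟨k, rfl⟩ := Subgroup.mem_zpowers_iff.1 hh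
      apply Subtype.ext
      show ((x ^ e) ^ k) ^ a = 1
      obtain ⟨c, hc⟩ := hea
      rw [← zpow_natCast, ← zpow_mul, mul_comm k, zpow_mul, zpow_natCast, ← pow_mul, hc, pow_mul,
        hxn, one_pow, one_zpow]
    rcases isEmpty_or_nonempty β with hβ | ⟨⟨j⟩⟩
    · have h1 : φ ⟨x ^ e, Subgroup.mem_zpowers _⟩ = 1 := by
        have : Subsingleton (FreeBurnside β (a * b)) := by
          refine ⟨fun g h => ?_⟩
          induction g using QuotientGroup.induction_on with
          | H w =>
            induction h using QuotientGroup.induction_on with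
            | H w' => rw [Subsingleton.elim w w']
        exact Subsingleton.elim _ _
      have h2 : (⟨x ^ e, Subgroup.mem_zpowers _⟩ : H) = 1 := by
        apply φ.injective; rw [h1, map_one]
      have h3 : x ^ e = 1 := congrArg Subtype.val h2
      refine gen_pow_ne_one i (fun hd => ?_) h3
      have h4 : a ∣ e := (Dvd.intro _ rfl).trans hd
      have h5 : (1 : ℕ) ≡ 0 [MOD a] := he1.symm.trans ((Nat.modEq_zero_iff_dvd).2 h4)
      have h6 : a ∣ 1 := (Nat.modEq_zero_iff_dvd).1 h5
      exact absurd (Nat.le_of_dvd one_pos h6) (by omega)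
    · have h1 : gen (a * b) j ^ a = 1 := by
        have h2 := congrArg φ (hHa (φ.symm (gen (a * b) j)))
        rwa [map_pow, map_one, MulEquiv.apply_symm_apply] at h2
      refine gen_pow_ne_one j (fun hd => ?_) h1
      have h4 := Nat.le_of_dvd (by omega) hd
      nlinarith

end Pool.Agent.Results.MP_836feb_al.NonfreeRetracts
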